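import Pool.Agent.Helper93.TCU.SStmt2

/-!
# T10, section 8: the lists of the S-stage
-/

set_option autoImplicit false

namespace Pool.TCU

open Pool.TC Pool.TCM Pool.TCS Pool.TCV Finset
open scoped Classical

/-- a subset of size `min |A| l` with as many elements of `S` as possible -/
private theorem SLis_choose {κ : Type} (A S : Finset κ) (hS : S ⊆ A) (l : ℕ) :
    ∃ L : Finset κ, L ⊆ A ∧ L.card ≤ l ∧ (l ≤ L.card ∨ A.card ≤ L.card) ∧
      ((L ⊆ S ∧ L.card = l) ∨ S ⊆ L) := by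
  by_cases h : l ≤ S.card
  · obtain ⟨L, hL1, hL2⟩ := exists_subset_card_eq h
    exact ⟨L, hL1.trans hS, le_of_eq hL2, Or.inl (le_of_eq hL2.symm), Or.inl ⟨hL1, hL2⟩⟩
  · have h1 : S.card ≤ min A.card l := le_min (card_le_card hS) (by omega)
    obtain ⟨L, hL1, hL2, hL3⟩ := exists_subsuperset_card_eq hS h1 (min_le_left _ _)
    refine ⟨L, hL2, by rw [hL3]; exact min_le_right _ _, ?_, Or.inr hL1⟩
    rw [hL3]
    rcases le_total A.card l with h2 | h2
    · right
      rw [min_eq_left h2]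
    · left
      rw [min_eq_right h2]

/-- the numbers of the proof -/
private theorem SLis_num {P : Par} (hN : Num10 P) (j0 : ℕ)
    (hj : (j0 : ℝ) ≤ (1 / 2) ^ P.r * ((P.D : ℝ) + 1)) :
    0 < P.D ∧ 0 ≤ P.nz ∧ 0 ≤ P.xi ∧ P.xi ≤ 1 / 200 ∧
    10 * (P.D : ℝ) ≤ 21 * (⌊((P.D : ℝ) + 1 - j0) / 2 - 4 * P.nz⌋₊ : ℝ) ∧
    (⌊((P.D : ℝ) + 1 - j0) / 2 - 4 * P.nz⌋₊ : ℝ) ≤ ((P.D : ℝ) + 1 - j0) / 2 - 4 * P.nz ∧
    2 * (⌊((P.D : ℝ) + 1 - j0) / 2 - 4 * P.nz⌋₊ : ℝ) ≤ P.D ∧
    (j0 : ℝ) / 2 + 3 * P.nz ≤ 1 / 25 * (sk1 P * P.D) := by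
  have hX : (100000 : ℝ) * 1000000 ≤ P.X := by
    have h1 : ((10 ^ 20 : ℕ) : ℝ) ≤ (P.X : ℝ) := by exact_mod_cast hN.X0
    refine le_trans ?_ h1
    norm_num
  have hX1 : (1 : ℝ) ≤ P.X := by linarith
  have hX0 : (0 : ℝ) < P.X := by linarith
  obtain ⟨X, hXe⟩ : ∃ X : ℝ, X = (P.X : ℝ) := ⟨_, rfl⟩
  rw [← hXe] at hX hX1 hX0
  -- the square root
  obtain ⟨s, hs⟩ : ∃ s : ℝ, s = Real.sqrt P.D := ⟨_, rfl⟩
  have hs0 : 0 ≤ s := by rw [hs]; exact Real.sqrt_nonneg _
  have hsD : s * s = P.D := by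
    rw [hs]
    exact Real.mul_self_sqrt (Nat.cast_nonneg _)
  have hDX : X ^ 10000 ≤ (P.D : ℝ) := by
    refine le_trans ?_ hN.XD
    rw [hXe]
    rw [hXe] at hX1
    exact pow_le_pow_right₀ hX1 (by norm_num)
  have hsX : X ^ 5000 ≤ s := by
    rw [hs]
    apply Real.le_sqrt_of_sq_le
    rw [← pow_mul]
    exact hDX
  have hnz : P.nz = X ^ 10 * s := by rw [hN.nz, ← hXe, ← hs]
  have hs11 : X ^ 11 ≤ s := le_trans (pow_le_pow_right₀ hX1 (by norm_num)) hsX
  have hX10 : 1 ≤ X ^ 10 := one_le_pow₀ hX1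
  have hs1 : 1 ≤ s := le_trans (one_le_pow₀ hX1) hs11
  have hnz1 : 1 ≤ P.nz := by
    rw [hnz]
    nlinarith
  -- nz ≤ D / 1000
  have hnzD : 1000 * P.nz ≤ P.D := by
    rw [hnz, ← hsD]
    have h1 : 1000 * X ^ 10 ≤ X ^ 11 := by
      have h2 : X ^ 11 = X * X ^ 10 := by ring
      rw [h2]
      apply mul_le_mul_of_nonneg_right _ (by positivity)
      linarith
    have h3 : 1000 * X ^ 10 ≤ s := h1.trans hs11
    calc 1000 * (X ^ 10 * s) = (1000 * X ^ 10) * s := by ring
      _ ≤ s * s := mul_le_mul_of_nonneg_right h3 hs0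
  have hD1000 : (1000 : ℝ) ≤ P.D := by linarith
  have hD0 : 0 < P.D := by
    have : (0 : ℝ) < P.D := by linarith
    exact_mod_cast this
  -- powers
  have hr7 : (1 / 2 : ℝ) ^ P.r ≤ 1 / 128 := by
    have h1 : (1 / 2 : ℝ) ^ P.r ≤ (1 / 2 : ℝ) ^ 7 :=
      pow_le_pow_of_le_one (by norm_num) (by norm_num) hN.r7
    refine le_trans h1 (by norm_num)
  have hj1 : (j0 : ℝ) ≤ ((P.D : ℝ) + 1) / 128 := by
    have : (1 / 2 : ℝ) ^ P.r * ((P.D : ℝ) + 1) ≤ 1 / 128 * ((P.D : ℝ) + 1) :=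
      mul_le_mul_of_nonneg_right hr7 (by linarith)
    linarith
  have hj00 : (0 : ℝ) ≤ j0 := Nat.cast_nonneg _
  -- delta
  have hdel : P.delta = 1 / X ^ 4900 := by rw [hN.delta, ← hXe]
  have hdel0 : 0 < P.delta := by rw [hdel]; positivity
  have hth : P.theta = 1 / X ^ 14 := by rw [hN.theta, ← hXe]
  have hLam : P.Lam = X ^ 3 := by rw [hN.Lam, ← hXe]
  have hpm : P.pmax = 103 * P.delta * X ^ 14 := by
    rw [hN.pmax, hth]
    field_simp
  have hxi : P.xi = 206000 * P.delta * X ^ 17 := by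
    rw [hN.xi, hpm, hLam]
    ring
  have hxi0 : 0 ≤ P.xi := by rw [hxi]; positivity
  have hxi1 : P.xi ≤ 1 / 200 := by
    rw [hxi, hdel]
    have e1 : 206000 * (1 / X ^ 4900) * X ^ 17 = 206000 * X ^ 17 / X ^ 4900 := by ring
    rw [e1, div_le_div_iff₀ (by positivity) (by norm_num)]
    have h1 : 206000 * X ^ 17 * 200 ≤ X ^ 18 := by
      have h2 : X ^ 18 = X * X ^ 17 := by ring
      have h3 : 206000 * X ^ 17 * 200 = 41200000 * X ^ 17 := by ring
      rw [h2, h3]
      apply mul_le_mul_of_nonneg_right _ (by positivity)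
      linarith
    rw [one_mul]
    exact h1.trans (pow_le_pow_right₀ hX1 (by norm_num))
  -- beta
  obtain ⟨b, hb⟩ : ∃ b : ℝ, b = bet (8 * P.kn) P.kn := ⟨_, rfl⟩
  have hkn : 1 ≤ P.kn := by
    rw [hN.kn]
    apply Nat.one_le_pow
    have := hN.X0
    exact lt_of_lt_of_le (by norm_num) this
  have hm : (8 : ℝ) ≤ ((8 * P.kn : ℕ) : ℝ) := by
    have : (8 : ℕ) ≤ 8 * P.kn := by omega
    exact_mod_cast this
  have hm0 : (0 : ℝ) < ((8 * P.kn : ℕ) : ℝ) := by linarith
  have hm1 : 1 / ((8 * P.kn : ℕ) : ℝ) ≤ 1 / 8 :=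
    one_div_le_one_div_of_le (by norm_num) hm
  have hm2 : 0 < 1 / ((8 * P.kn : ℕ) : ℝ) := by positivity
  have hb0 : 0 < b := by
    rw [hb, bet]
    apply mul_pos hm2
    apply pow_pos
    linarith
  have hb1 : b ≤ 1 := by
    rw [hb, bet]
    apply mul_le_one₀ (by linarith) (pow_nonneg (by linarith) _)
    exact pow_le_one₀ (by linarith) (by linarith)
  have hr2 : (1 / 2 : ℝ) ^ P.r ≤ b ^ 2 * P.delta / 80 := by
    rw [hb]
    exact hN.r2
  have hsk : 4000000 * P.delta ≤ sk1 P := by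
    have e1 : sk1 P = 20 * P.xi / b := by rw [sk1, sb, ← hb]
    rw [e1, le_div_iff₀ hb0]
    have h1 : P.delta ≤ P.delta * X ^ 17 := by
      have h2 : 1 ≤ X ^ 17 := one_le_pow₀ hX1
      nlinarith
    have h3 : 4000000 * P.delta * b ≤ 4000000 * P.delta := by nlinarith
    rw [hxi]
    linarith
  have hj2 : (j0 : ℝ) ≤ P.delta / 40 * P.D := by
    have h1 : b ^ 2 ≤ 1 := by nlinarith
    have h2 : (1 / 2 : ℝ) ^ P.r ≤ P.delta / 80 := by
      refine le_trans hr2 ?_
      have : b ^ 2 * P.delta ≤ 1 * P.delta := mul_le_mul_of_nonneg_right h1 hdel0.le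
      linarith
    have h3 : (1 / 2 : ℝ) ^ P.r * ((P.D : ℝ) + 1) ≤ P.delta / 80 * ((P.D : ℝ) + 1) :=
      mul_le_mul_of_nonneg_right h2 (by linarith)
    have h4 : P.delta / 80 * ((P.D : ℝ) + 1) ≤ P.delta / 80 * (2 * P.D) :=
      mul_le_mul_of_nonneg_left (by linarith) (by positivity)
    have h5 : P.delta / 80 * (2 * (P.D : ℝ)) = P.delta / 40 * P.D := by ring
    linarith
  have hnz3 : 3 * P.nz ≤ P.delta * P.D := by
    rw [hnz, ← hsD, hdel]
    have h1 : 3 * X ^ 10 * X ^ 4900 ≤ s := by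
      refine le_trans ?_ hsX
      have h2 : 3 * X ^ 10 * X ^ 4900 ≤ X ^ 4911 := by
        have h3 : X ^ 4911 = X * (X ^ 10 * X ^ 4900) := by ring
        have h4 : 3 * X ^ 10 * X ^ 4900 = 3 * (X ^ 10 * X ^ 4900) := by ring
        rw [h3, h4]
        apply mul_le_mul_of_nonneg_right _ (by positivity)
        linarith
      exact h2.trans (pow_le_pow_right₀ hX1 (by norm_num))
    have e1 : 1 / X ^ 4900 * (s * s) = s * s / X ^ 4900 := by ring
    rw [e1, le_div_iff₀ (by positivity)]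
    calc 3 * (X ^ 10 * s) * X ^ 4900 = 3 * X ^ 10 * X ^ 4900 * s := by ring
      _ ≤ s * s := mul_le_mul_of_nonneg_right h1 hs0
  -- floor
  have hnn : 0 ≤ ((P.D : ℝ) + 1 - j0) / 2 - 4 * P.nz := by linarith
  have hf1 := Nat.floor_le hnn
  have hf2 := Nat.lt_floor_add_one (((P.D : ℝ) + 1 - j0) / 2 - 4 * P.nz)
  refine ⟨hD0, by linarith, hxi0, hxi1, by linarith, hf1, by linarith, ?_⟩
  have h1 : 4000000 * P.delta * P.D ≤ sk1 P * P.D :=
    mul_le_mul_of_nonneg_right hsk (Nat.cast_nonneg _)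
  have h2 : 0 ≤ P.delta * P.D := mul_nonneg hdel0.le (Nat.cast_nonneg _)
  have h3 : P.delta / 40 * (P.D : ℝ) = 1 / 40 * (P.delta * P.D) := by ring
  have h4 : 4000000 * P.delta * (P.D : ℝ) = 4000000 * (P.delta * P.D) := by ring
  linarith

section main

variable {V κ : Type} [Fintype V] [Fintype κ]

private theorem SLis_nb {G : SimpleGraph V} {u v : V} : v ∈ nb G u ↔ G.Adj u v := by simp [nb]

/-- the colours which are lost because of `X` are few -/
private theorem SLis_loss {P : Par} {t : Td V κ} {X : V → Prop} {cX : V → κ}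
    (hB : Bse P t) (hX : XP P t X cX) {u : V} (hu : t.K u = none) (A : Finset κ)
    (hA : ∀ a ∈ A, a ∉ t.J0 ∧ t.cr u a) :
    (A.card : ℝ) ≤ ((A.filter (fun a => a ∈ sO t X cX u)).card : ℝ) +
      2 * (P.xi * t.dKU u + P.nz) := by
  have h6 := hX.x6 u hu
  have h6' := hX.x6' u hu
  have hsub : A ⊆ (A.filter (fun a => a ∈ sO t X cX u)) ∪
      ((A.filter (fun a => colX t X cX (t.E.N a u))) ∪
        ((nb t.G u).filter (fun w => X w)).image cX) := by
    intro a ha
    by_cases h1 : colX t X cX (t.E.N a u)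
    · exact mem_union_right _ (mem_union_left _ (mem_filter.2 ⟨ha, h1⟩))
    · by_cases h2 : ∀ w, X w → t.G.Adj u w → cX w ≠ a
      · apply mem_union_left
        refine mem_filter.2 ⟨ha, ?_⟩
        simp only [sO, mem_filter, mem_univ, true_and]
        exact ⟨(hA a ha).1, (hA a ha).2, h1, h2⟩
      · push Not at h2
        obtain ⟨w, hw1, hw2, hw3⟩ := h2
        apply mem_union_right
        apply mem_union_right
        exact mem_image.2 ⟨w, mem_filter.2 ⟨SLis_nb.2 hw2, hw1⟩, hw3⟩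
  have hc1 : (A.filter (fun a => colX t X cX (t.E.N a u))).card ≤
      ((nb t.G u).filter (fun v => colX t X cX v)).card := by
    apply card_le_card_of_injOn (fun a => t.E.N a u)
    · intro a ha
      obtain ⟨ha1, ha2⟩ := mem_filter.1 (mem_coe.1 ha)
      have hg : t.gc u a := (hA a ha1).2.1
      rw [mem_coe, mem_filter, SLis_nb]
      exact ⟨hB.ed.sub a u hg.1, ha2⟩
    · intro a ha b hb hab
      obtain ⟨ha1, ha2⟩ := mem_filter.1 (mem_coe.1 ha)
      have hg : t.gc u a := (hA a ha1).2.1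
      exact t.E.uniq a b u hab hg.1
  have hc := card_le_card hsub
  have hc2 := le_trans hc (card_union_le _ _)
  have hc3 := card_union_le (A.filter (fun a => colX t X cX (t.E.N a u)))
    (((nb t.G u).filter (fun w => X w)).image cX)
  have hc4 : (((nb t.G u).filter (fun w => X w)).image cX).card ≤
    ((nb t.G u).filter (fun w => X w)).card := card_image_le
  have hc5 : A.card ≤ (A.filter (fun a => a ∈ sO t X cX u)).card +
      (((nb t.G u).filter (fun v => colX t X cX v)).card +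
        ((nb t.G u).filter (fun w => X w)).card) := by omega
  have hc6 : (A.card : ℝ) ≤ ((A.filter (fun a => a ∈ sO t X cX u)).card : ℝ) +
      ((((nb t.G u).filter (fun v => colX t X cX v)).card : ℝ) +
        (((nb t.G u).filter (fun w => X w)).card : ℝ)) := by exact_mod_cast hc5
  linarith

end main

/-- SLIS. -/
theorem thm_SLis : St_SLis := by
  intro P V κ _ _ t X cX hN hB hX
  obtain ⟨hD0, hnz0, hxi0, hxi1, hl1, hl2, hl3, hk⟩ := SLis_num hN t.J0.card hB.ed.j0
  have hsl : ⌊((P.D : ℝ) + 1 - t.J0.card) / 2 - 4 * P.nz⌋₊ = sl P t := rfl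
  rw [hsl] at hl1 hl2 hl3
  have hD : (0 : ℝ) < P.D := by exact_mod_cast hD0
  have hell : (0 : ℝ) < sl P t := by linarith
  have hch : ∀ u : V, ∃ L : Finset κ, L ⊆ sO t X cX u ∧ L.card ≤ sl P t ∧
      (sl P t ≤ L.card ∨ (sO t X cX u).card ≤ L.card) ∧
      ((L ⊆ (sO t X cX u).filter (fun a => skt t u a) ∧ L.card = sl P t) ∨
        (sO t X cX u).filter (fun a => skt t u a) ⊆ L) := fun u =>
    SLis_choose _ _ (filter_subset _ _) _
  choose L hL1 hL2 hL3 hL4 using hch
  have hdK : ∀ u, (t.dKU u : ℝ) ≤ P.D := by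
    intro u
    have : t.dKU u ≤ P.D := by
      rw [← hB.gr.reg u]
      exact card_filter_le _ _
    exact_mod_cast this
  have hKn : ∀ u ∈ sU t, t.K u = none := by
    intro u hu
    simp only [sU, mem_filter, mem_univ, true_and] at hu
    exact hu.1
  refine ⟨L, fun u _ => hL1 u, fun u _ => hL2 u, ?_, ?_⟩
  · intro u hu
    have h0 : (0 : ℝ) ≤ t.dKU u := Nat.cast_nonneg _
    -- the size of the list
    have hbig : (sl P t : ℝ) - 2 * (P.xi * t.dKU u) ≤ ((L u).card : ℝ) := by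
      have hxd : 0 ≤ P.xi * t.dKU u := mul_nonneg hxi0 h0
      rcases hL3 u with h1 | h1
      · have h2 : (sl P t : ℝ) ≤ ((L u).card : ℝ) := by exact_mod_cast h1
        linarith
      · have h2 : ((sO t X cX u).card : ℝ) ≤ ((L u).card : ℝ) := by exact_mod_cast h1
        have h3 := SLis_loss hB hX (hKn u hu) (univ.filter (fun a => a ∉ t.J0 ∧ t.cr u a))
          (fun a ha => (mem_filter.1 ha).2)
        have h4 : (((univ.filter (fun a => a ∉ t.J0 ∧ t.cr u a)).filter
            (fun a => a ∈ sO t X cX u)).card : ℝ) ≤ ((sO t X cX u).card : ℝ) := by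
          have h5 : ((univ.filter (fun a => a ∉ t.J0 ∧ t.cr u a)).filter
            (fun a => a ∈ sO t X cX u)).card ≤ (sO t X cX u).card :=
            card_le_card (fun a ha => (mem_filter.1 ha).2)
          exact_mod_cast h5
        have h6 := hB.ts.s1 u
        linarith
    have hdd : dd L (sl P t) u * (sl P t : ℝ) ≤ 2 * (P.xi * t.dKU u) := by
      rw [dd, sub_mul, one_mul, div_mul_cancel₀ _ hell.ne']
      linarith
    have hgoal : 21 / 5 * P.xi * skap P t u * (sl P t : ℝ) ≥ 2 * (P.xi * t.dKU u) := by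
      rw [skap]
      have e1 : 21 / 5 * P.xi * ((t.dKU u : ℝ) / P.D) * (sl P t : ℝ) =
          (P.xi * t.dKU u) * (21 * (sl P t : ℝ) / (5 * P.D)) := by
        field_simp
      rw [e1]
      have h7 : 2 ≤ 21 * (sl P t : ℝ) / (5 * P.D) := by
        rw [le_div_iff₀ (by positivity)]
        linarith
      have h8 := mul_le_mul_of_nonneg_left h7 (mul_nonneg hxi0 h0)
      linarith
    exact le_of_mul_le_mul_right (le_trans hdd hgoal) hell
  · intro u hu hsk
    have h0 : (0 : ℝ) ≤ t.dKU u := Nat.cast_nonneg _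
    have hkap : skap P t u ≤ 1 := by
      rw [skap, div_le_one hD]
      exact hdK u
    have hkap0 : 0 ≤ skap P t u := by
      rw [skap]
      positivity
    rcases hL4 u with ⟨h1, h2⟩ | h1
    · have h3 : (L u).filter (fun a => skt t u a) = L u := by
        apply filter_true_of_mem
        intro a ha
        exact (mem_filter.1 (h1 ha)).2
      rw [h3, h2]
      have : 9 / 10 * skap P t u ≤ 1 := by linarith
      nlinarith
    · have h2 : (((sO t X cX u).filter (fun a => skt t u a)).card : ℝ) ≤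
          (((L u).filter (fun a => skt t u a)).card : ℝ) := by
        have h3 : ((sO t X cX u).filter (fun a => skt t u a)).card ≤
          ((L u).filter (fun a => skt t u a)).card := by
          apply card_le_card
          intro a ha
          exact mem_filter.2 ⟨h1 ha, (mem_filter.1 ha).2⟩
        exact_mod_cast h3
      refine le_trans ?_ h2
      have h3 := SLis_loss hB hX (hKn u hu)
        (univ.filter (fun a => a ∉ t.J0 ∧ t.cr u a ∧ t.K (t.E.N a u) ≠ none))
        (fun a ha => ⟨(mem_filter.1 ha).2.1, (mem_filter.1 ha).2.2.1⟩)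
      have h4 : (((univ.filter (fun a => a ∉ t.J0 ∧ t.cr u a ∧
          t.K (t.E.N a u) ≠ none)).filter (fun a => a ∈ sO t X cX u)).card : ℝ) ≤
          (((sO t X cX u).filter (fun a => skt t u a)).card : ℝ) := by
        have h5 : ((univ.filter (fun a => a ∉ t.J0 ∧ t.cr u a ∧
          t.K (t.E.N a u) ≠ none)).filter (fun a => a ∈ sO t X cX u)).card ≤
          ((sO t X cX u).filter (fun a => skt t u a)).card := by
          apply card_le_card
          intro a ha
          obtain ⟨ha1, ha2⟩ := mem_filter.1 ha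
          exact mem_filter.2 ⟨ha2, (mem_filter.1 ha1).2.2.2⟩
        exact_mod_cast h5
      have h6 := hB.ts.s1k u (hKn u hu)
      -- `k1 D ≤ dKU`
      have h7 : sk1 P * P.D ≤ t.dKU u := by
        rw [skap, le_div_iff₀ hD] at hsk
        exact hsk
      have h8 : P.xi * t.dKU u ≤ 1 / 200 * t.dKU u := mul_le_mul_of_nonneg_right hxi1 h0
      have h9 : 9 / 10 * skap P t u * (sl P t : ℝ) ≤ 9 / 20 * t.dKU u := by
        rw [skap]
        have e1 : 9 / 10 * ((t.dKU u : ℝ) / P.D) * (sl P t : ℝ) =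
            9 / 20 * t.dKU u * (2 * (sl P t : ℝ) / P.D) := by
          field_simp
          ring
        rw [e1]
        have h10 : 2 * (sl P t : ℝ) / P.D ≤ 1 := by
          rw [div_le_one hD]
          exact hl3
        have h11 := mul_le_mul_of_nonneg_left h10 (by positivity : 0 ≤ 9 / 20 * (t.dKU u : ℝ))
        linarith
      refine le_trans h9 ?_
      linarith

end Pool.TCU
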